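import Pool.Agent.MP_9d963a_nt.Sv

/-! Linear forms with distinct roots: the sieve bound; the forms of the polygonal problem. -/

set_option autoImplicit false

namespace Pool.Agent.MP_9d963a_nt

open Finset Function Sv

theorem roots {N p : ℕ} (hp : p.Prime) (a b : Fin N → ℤ) (ha : ∀ i, ¬ (p : ℤ) ∣ a i)
    (hd : ∀ i j, i ≠ j → ¬ (p : ℤ) ∣ a i * b j - a j * b i) :
    ((range p).filter fun l : ℕ => ∃ i, (p : ℤ) ∣ a i * l + b i).card = N := by
  have : Fact p.Prime := ⟨hp⟩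
  have ha' : ∀ i, (a i : ZMod p) ≠ 0 := fun i h =>
    ha i ((ZMod.intCast_zmod_eq_zero_iff_dvd _ _).1 h)
  have key : ∀ i (l : ℕ), (p : ℤ) ∣ a i * l + b i ↔ (l : ZMod p) = -(b i : ZMod p) / a i := by
    intro i l
    rw [← ZMod.intCast_zmod_eq_zero_iff_dvd, eq_div_iff (ha' i)]
    push_cast
    constructor <;> intro h <;> linear_combination h
  have e : ((range p).filter fun l : ℕ => ∃ i, (p : ℤ) ∣ a i * l + b i) =
      univ.image fun i => (-(b i : ZMod p) / a i).val := by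
    ext l
    simp only [mem_filter, mem_range, mem_image, mem_univ, true_and, key]
    constructor
    · rintro ⟨h, i, hi⟩
      exact ⟨i, by rw [← hi, ZMod.val_cast_of_lt h]⟩
    · rintro ⟨i, rfl⟩
      exact ⟨ZMod.val_lt _, i, ZMod.natCast_zmod_val _⟩
  rw [e, card_image_of_injective, card_univ, Fintype.card_fin]
  intro i j h
  by_contra hij
  have h1 := ZMod.val_injective p h
  rw [div_eq_div_iff (ha' i) (ha' j)] at h1
  refine hd i j hij ((ZMod.intCast_zmod_eq_zero_iff_dvd _ _).1 ?_)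
  push_cast
  linear_combination h1

theorem not_dvd {p w : ℕ} {d : ℤ} (h : w < p) (h0 : d ≠ 0) (h1 : |d| ≤ w) : ¬ (p : ℤ) ∣ d :=
  fun hd => by
    have := Int.le_of_dvd (abs_pos.2 h0) ((dvd_abs _ _).2 hd)
    omega

theorem forms {N w z : ℕ} (hz : 1 ≤ z) (a b : Fin N → ℤ) (ha : ∀ i, a i ≠ 0 ∧ |a i| ≤ w)
    (hd : ∀ i j, i ≠ j → a i * b j - a j * b i ≠ 0 ∧ |a i * b j - a j * b i| ≤ w) (r K : ℕ)
    (E : Finset ℕ) (hE : ∀ k ∈ E, k < K ∧ ∀ p ∈ pri w z, ∀ i, ¬ (p : ℤ) ∣ a i * k + b i) :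
    (E.card : ℝ) ≤ K * Real.exp (-(N * ∑ p ∈ pri w z, (1 : ℝ) / p)) +
      3 * K * Real.exp (8 * (N * ∑ p ∈ pri w z, (1 : ℝ) / p)) / 4 ^ (r + 1) +
        18 * (2 * z * z : ℝ) ^ (r + 1) := by
  classical
  set t : ℕ → ℕ → ℝ := fun p l => if ∃ i, (p : ℤ) ∣ a i * l + b i then 1 else 0 with ht
  have t01 : ∀ p l, t p l = 0 ∨ t p l = 1 := fun p l => by
    simp only [ht]
    split_ifs <;> simp
  have tp : ∀ p, Periodic (t p) p := fun p l => by
    simp only [ht]
    refine if_congr (exists_congr fun i => ?_) rfl rfl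
    rw [show a i * ((l + p : ℕ) : ℤ) + b i = a i * l + b i + p * a i by push_cast; ring]
    exact dvd_add_left (dvd_mul_right _ _)
  have tb : ∀ p l, |t p l| ≤ 1 := fun p l => by rcases t01 p l with h | h <;> simp [h]
  have cop : ∀ p ∈ pri w z, ∀ p' ∈ pri w z, p ≠ p' → Nat.Coprime p p' := fun p hp p' hp' h =>
    (Nat.coprime_primes (mem_pri.1 hp).2 (mem_pri.1 hp').2).2 h
  have PT : Per (pri w z) id z t := ⟨fun p hp => (mem_pri.1 hp).2.ne_zero,
    fun p hp => (mem_pri.1 hp).1.2, cop, fun p _ => tp p, fun p _ => tb p⟩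
  have PH : Per (pri w z) id z fun p l => -t p l := ⟨PT.pos, PT.le, cop,
    fun p _ l => by simp only [id, tp p l], fun p _ l => by rw [abs_neg]; exact tb p l⟩
  have cnt : ∀ p ∈ pri w z, ∑ l ∈ range p, t p l = N := fun p hp => by
    obtain ⟨⟨h1, -⟩, h2⟩ := mem_pri.1 hp
    rw [← roots h2 a b (fun i => not_dvd h1 (ha i).1 (ha i).2)
      fun i j h => not_dvd h1 (hd i j h).1 (hd i j h).2]
    simp [ht]
  have m1 : ∀ p ∈ pri w z, mean (t p) (id p) = N * (1 / p) := fun p hp => by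
    rw [mean, id, cnt p hp, mul_one_div]
  have m2 : ∀ p ∈ pri w z, mean (fun l => -t p l) (id p) = -(N * (1 / p)) := fun p hp => by
    rw [mean, id, sum_neg_distrib, cnt p hp, mul_one_div, neg_div]
  have h := sieve PH PT hz hz ((card_filter_le _ _).trans (by simp)) (fun p _ => t01 p)
    (fun p _ l => by rcases t01 p l with h | h <;> simp [h]) zero_le_one le_rfl
    (lam := N * ∑ p ∈ pri w z, (1 : ℝ) / p) (by rw [sum_congr rfl m1, mul_sum]) r K 0 E
    fun k hk => ⟨(hE k hk).1, by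
      rw [one_mul, prod_eq_one]
      intro p hp
      have : ¬ ∃ i, (p : ℤ) ∣ a i * (0 + k : ℕ) + b i := fun ⟨i, hi⟩ =>
        (hE k hk).2 p hp i (by simpa using hi)
      simp only [ht, if_neg this, neg_zero, add_zero]⟩
  refine h.trans (add_le_add (add_le_add ?_ le_rfl) le_rfl)
  rw [one_mul]
  refine mul_le_mul_of_nonneg_left ((prod_le_exp fun p hp => ?_).trans (le_of_eq ?_))
    (Nat.cast_nonneg _)
  · have p0 : (0 : ℝ) < p := by exact_mod_cast (mem_pri.1 hp).2.pos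
    have : ∑ l ∈ range p, t p l ≤ p := (sum_le_card_nsmul _ _ 1 fun l _ =>
      (le_abs_self _).trans (tb p l)).trans (by simp)
    rw [m2 p hp, ← cnt p hp, mul_one_div, ← sub_eq_add_neg, sub_nonneg, div_le_one p0]
    exact this
  · rw [sum_congr rfl m2, sum_neg_distrib, mul_sum]

/-- the sum of the two polygonal numbers -/
def val (k x y : ℕ) : ℕ := ((k - 2) * x * (x - 1) / 2 + x) + ((k + 1 - 2) * y * (y - 1) / 2 + y)

/-- the coefficients of twice this sum as a linear form in `k` -/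
def cA (x y : ℤ) : ℤ := x * (x - 1) + y * (y - 1)
def cB (x y : ℤ) : ℤ := 2 * (x + y) - 2 * (x * (x - 1)) - y * (y - 1)

theorem half (m : ℕ) {x : ℕ} (hx : 1 ≤ x) :
    2 * ((m * x * (x - 1) / 2 : ℕ) : ℤ) = m * (x * (x - 1)) := by
  have h : 2 ∣ m * x * (x - 1) := by
    rw [mul_assoc]
    exact (Nat.even_mul_pred_self x).two_dvd.mul_left m
  have := congrArg (Nat.cast : ℕ → ℤ) (Nat.mul_div_cancel' h)
  rw [Nat.cast_mul, Nat.cast_mul, Nat.cast_mul, Nat.cast_sub hx] at this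
  push_cast at this ⊢
  linear_combination this

theorem two_val {k x y : ℕ} (hk : 3 ≤ k) (hx : 1 ≤ x) (hy : 1 ≤ y) :
    2 * (val k x y : ℤ) = cA x y * k + cB x y := by
  have h1 := half (k - 2) hx
  have h2 := half (k + 1 - 2) hy
  rw [Nat.cast_sub (by omega)] at h1 h2
  rw [val, Nat.cast_add, Nat.cast_add, Nat.cast_add, cA, cB]
  generalize (((k - 2) * x * (x - 1) / 2 : ℕ) : ℤ) = u at *
  generalize (((k + 1 - 2) * y * (y - 1) / 2 : ℕ) : ℤ) = v at *
  push_cast at h1 h2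
  linear_combination h1 + h2

theorem le_val {k x y : ℕ} (hk : 3 ≤ k) (hx : 1 ≤ x) (hy : 1 ≤ y) (h : 3 ≤ x + y) :
    k ≤ val k x y := by
  have h1 := two_val hk hx hy
  rw [cA, cB] at h1
  have hk' : (3 : ℤ) ≤ k := by exact_mod_cast hk
  have hx' : (1 : ℤ) ≤ x := by exact_mod_cast hx
  have hy' : (1 : ℤ) ≤ y := by exact_mod_cast hy
  have a1 : (0 : ℤ) ≤ x * (x - 1) := by nlinarith
  have a2 : (0 : ℤ) ≤ y * (y - 1) := by nlinarith
  have : (k : ℤ) ≤ val k x y := by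
    rcases (show 2 ≤ x ∨ 2 ≤ y by omega) with c | c
    · have c' : (2 : ℤ) ≤ x := by exact_mod_cast c
      have : (2 : ℤ) ≤ x * (x - 1) := by nlinarith
      nlinarith
    · have c' : (2 : ℤ) ≤ y := by exact_mod_cast c
      have : (2 : ℤ) ≤ y * (y - 1) := by nlinarith
      nlinarith
  exact_mod_cast this

theorem size {x y T : ℤ} (hx : 1 ≤ x) (hy : 1 ≤ y) (h : 3 ≤ x + y) (hT : x + y ≤ T) :
    0 < cA x y ∧ cA x y ≤ T ^ 2 ∧ |cB x y| ≤ 2 * T ^ 2 := by
  have a1 : 0 ≤ x * (x - 1) := by nlinarith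
  have a2 : 0 ≤ y * (y - 1) := by nlinarith
  have a3 : x * (x - 1) + y * (y - 1) ≤ T ^ 2 := by nlinarith
  refine ⟨?_, a3, abs_le.2 ⟨?_, ?_⟩⟩
  · rw [cA]
    rcases (show 2 ≤ x ∨ 2 ≤ y by omega) with c | c <;> nlinarith
  · rw [cB]; nlinarith
  · rw [cB]; nlinarith

theorem same {x y x' y' : ℤ} (hx : 1 ≤ x) (hy : 1 ≤ y) (hx' : 1 ≤ x') (hy' : 1 ≤ y')
    (hA : cA x y = cA x' y') (hB : cB x y = cB x' y') : x + y = x' + y' := by
  rw [cA, cA] at hA
  rw [cB, cB] at hB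
  have e1 : 2 * (x - x' + (y - y')) = (x - x') * (x + x' - 1) := by linear_combination hA + hB
  have e2 : (x - x') * (x + x' - 1) = (y' - y) * (y + y' - 1) := by linear_combination hA
  rcases lt_trichotomy x x' with c | c | c
  · have b1 : y ≤ y' := by nlinarith
    nlinarith
  · subst c
    linarith
  · have b1 : y' ≤ y := by nlinarith
    nlinarith

theorem det_ne {k x y x' y' : ℕ} (hk : 3 ≤ k) (hx : 1 ≤ x) (hy : 1 ≤ y) (hx' : 1 ≤ x')
    (hy' : 1 ≤ y') (h : 3 ≤ x + y) (h0 : 0 < cA x y) (h1 : cA x y < k) (hn : x + y ≠ x' + y')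
    (hp : (val k x y).Prime) (hp' : (val k x' y').Prime) :
    cA x y * cB x' y' - cA x' y' * cB x y ≠ 0 := by
  intro e
  have t1 := two_val hk hx hy
  have t2 := two_val hk hx' hy'
  have l1 : (k : ℤ) ≤ val k x y := by exact_mod_cast le_val hk hx hy h
  have e1 : (val k x' y' : ℤ) * cA x y = val k x y * cA x' y' := by
    have : 2 * ((val k x' y' : ℤ) * cA x y) = 2 * (val k x y * cA x' y') := by
      linear_combination cA x y * t2 - cA x' y' * t1 + e
    linarith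
  rcases (Nat.prime_iff_prime_int.1 hp).dvd_or_dvd ⟨_, e1⟩ with c | c
  · have c1 : val k x y = val k x' y' :=
      (Nat.prime_dvd_prime_iff_eq hp hp').1 (Int.natCast_dvd_natCast.1 c)
    rw [← c1] at e1 t2
    have c2 : cA x y = cA x' y' := mul_left_cancel₀ (by exact_mod_cast hp.ne_zero) e1
    have c3 := same (x := x) (y := y) (x' := x') (y' := y') (by exact_mod_cast hx)
      (by exact_mod_cast hy) (by exact_mod_cast hx') (by exact_mod_cast hy') c2
      (by linear_combination t2 - t1 - k * c2)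
    exact hn (by exact_mod_cast c3)
  · have := Int.le_of_dvd h0 c
    omega

end Pool.Agent.MP_9d963a_nt
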