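import Pool.Agent.MP_9d963a_nt.Forms

/-! The union over the choices of the splittings and the choice of the parameters. -/

set_option autoImplicit false

namespace Pool.Agent.MP_9d963a_nt

open Finset Function Sv

/-- every `n` with `1 < n ≤ T` splits with a prime value -/
def Ok (T k : ℕ) : Prop :=
  ∀ n : ℕ, 1 < n → n ≤ T → ∃ x y : ℕ, 0 < x ∧ 0 < y ∧ n = x + y ∧ (val k x y).Prime

theorem one_choice {N z : ℕ} (hz : (N + 2) ^ 6 ≤ z) (χ : Fin N → ℕ) (r K : ℕ) (E : Finset ℕ)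
    (hE : ∀ k ∈ E, 3 ≤ k ∧ z < k ∧ k < K ∧ ∀ i : Fin N, 1 ≤ χ i ∧ χ i < i + 3 ∧
      (val k (χ i) (i + 3 - χ i)).Prime) :
    (E.card : ℝ) ≤ K * Real.exp (-(N * ∑ p ∈ pri ((N + 2) ^ 6) z, (1 : ℝ) / p)) +
      3 * K * Real.exp (8 * (N * ∑ p ∈ pri ((N + 2) ^ 6) z, (1 : ℝ) / p)) / 4 ^ (r + 1) +
        18 * (2 * z * z : ℝ) ^ (r + 1) := by
  rcases E.eq_empty_or_nonempty with rfl | ⟨k0, hk0⟩
  · rw [card_empty, Nat.cast_zero]
    positivity
  obtain ⟨k3, kz, -, h0⟩ := hE k0 hk0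
  have hy : ∀ i : Fin N, 1 ≤ i + 3 - χ i := fun i => by have := h0 i; omega
  have hs : ∀ i : Fin N, χ i + (i + 3 - χ i) = i + 3 := fun i => by have := h0 i; omega
  have T2 : (2 : ℤ) ≤ (N : ℤ) + 2 := by omega
  have sz : ∀ i : Fin N, 0 < cA (χ i) (i + 3 - χ i : ℕ) ∧
      cA (χ i) (i + 3 - χ i : ℕ) ≤ ((N : ℤ) + 2) ^ 2 ∧
      |cB (χ i) (i + 3 - χ i : ℕ)| ≤ 2 * ((N : ℤ) + 2) ^ 2 := fun i => by
    have a := h0 i
    have b := i.2
    exact size (by omega) (by omega) (by omega) (by omega)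
  have w1 : ((N : ℤ) + 2) ^ 2 ≤ ((N : ℤ) + 2) ^ 6 := pow_le_pow_right₀ (by omega) (by norm_num)
  have w2 : 4 * ((N : ℤ) + 2) ^ 4 ≤ ((N : ℤ) + 2) ^ 6 := by
    have : (4 : ℤ) ≤ ((N : ℤ) + 2) ^ 2 := by nlinarith
    calc _ ≤ ((N : ℤ) + 2) ^ 2 * ((N : ℤ) + 2) ^ 4 := by gcongr
      _ = _ := by ring
  have hz' : ((N : ℤ) + 2) ^ 6 ≤ z := by exact_mod_cast hz
  refine forms ((Nat.one_le_pow _ _ (by omega)).trans hz) (fun i => cA (χ i) (i + 3 - χ i : ℕ))
    (fun i => cB (χ i) (i + 3 - χ i : ℕ)) (fun i => ⟨(sz i).1.ne', ?_⟩) (fun i j hij => ⟨?_, ?_⟩)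
    r K E fun k hk => ⟨(hE k hk).2.2.1, fun p hp i hd => ?_⟩
  · rw [abs_of_pos (sz i).1]
    push_cast
    exact (sz i).2.1.trans w1
  · refine det_ne k3 (h0 i).1 (hy i) (h0 j).1 (hy j) (by rw [hs]; omega) (sz i).1 ?_ ?_
      (h0 i).2.2 (h0 j).2.2
    · have := (sz i).2.1
      omega
    · rw [hs, hs]
      exact fun e => hij (Fin.ext (by omega))
  · obtain ⟨a1, a2, a3⟩ := sz i
    obtain ⟨b1, b2, b3⟩ := sz j
    refine (abs_sub _ _).trans ?_
    rw [abs_mul, abs_mul, abs_of_pos a1, abs_of_pos b1]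
    have c1 := mul_le_mul a2 b3 (abs_nonneg _) (by positivity)
    have c2 := mul_le_mul b2 a3 (abs_nonneg _) (by positivity)
    push_cast
    linarith
  · obtain ⟨a3, az, -, a0⟩ := hE k hk
    obtain ⟨⟨p1, p2⟩, p3⟩ := mem_pri.1 hp
    rw [← two_val a3 (a0 i).1 (hy i)] at hd
    have hd' : p ∣ 2 * val k (χ i) (i + 3 - χ i) := by exact_mod_cast hd
    have l1 := le_val a3 (a0 i).1 (hy i) (by rw [hs]; omega)
    rcases (Nat.Prime.dvd_mul p3).1 hd' with c | c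
    · have c1 := Nat.le_of_dvd two_pos c
      have c2 : 2 ^ 6 ≤ (N + 2) ^ 6 := Nat.pow_le_pow_left (by omega) 6
      omega
    · have := (Nat.prime_dvd_prime_iff_eq p3 (a0 i).2.2).1 c
      omega

theorem union {N z : ℕ} (hz : (N + 2) ^ 6 ≤ z) (r K : ℕ) (G : Finset ℕ)
    (hG : ∀ k ∈ G, 3 ≤ k ∧ k < K ∧ Ok (N + 2) k) :
    (G.card : ℝ) ≤ (z + 1) + (N + 2 : ℝ) ^ N *
      (K * Real.exp (-(N * ∑ p ∈ pri ((N + 2) ^ 6) z, (1 : ℝ) / p)) +
      3 * K * Real.exp (8 * (N * ∑ p ∈ pri ((N + 2) ^ 6) z, (1 : ℝ) / p)) / 4 ^ (r + 1) +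
        18 * (2 * z * z : ℝ) ^ (r + 1)) := by
  classical
  set E : (Fin N → ℕ) → Finset ℕ := fun χ => G.filter fun k => z < k ∧ ∀ i : Fin N,
    1 ≤ χ i ∧ χ i < i + 3 ∧ (val k (χ i) (i + 3 - χ i)).Prime with hE
  have sub : G ⊆ range (z + 1) ∪ (Fintype.piFinset fun _ : Fin N => range (N + 2)).biUnion E := by
    intro k hk
    rcases le_or_gt k z with h | h
    · exact mem_union_left _ (mem_range.2 (by omega))
    choose x y h1 h2 h3 h4 using fun i : Fin N =>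
      (hG k hk).2.2 (i + 3) (by omega) (by have := i.2; omega)
    refine mem_union_right _ (mem_biUnion.2 ⟨x, Fintype.mem_piFinset.2 fun i => mem_range.2 ?_,
      mem_filter.2 ⟨hk, h, fun i => ⟨h1 i, ?_, ?_⟩⟩⟩)
    · have := i.2
      have := h2 i
      have := h3 i
      omega
    · have := h2 i
      have := h3 i
      omega
    · rw [h3 i, Nat.add_sub_cancel_left]
      exact h4 i
  have c1 := (card_le_card sub).trans ((card_union_le _ _).trans
    (Nat.add_le_add_left card_biUnion_le _))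
  rw [card_range] at c1
  refine (Nat.cast_le.2 c1).trans ?_
  rw [Nat.cast_add, Nat.cast_add, Nat.cast_one, Nat.cast_sum]
  refine add_le_add le_rfl ((sum_le_card_nsmul _ _ _ fun χ _ => one_choice hz χ r K (E χ)
    fun k hk => ?_).trans (le_of_eq ?_))
  · obtain ⟨a, b, c⟩ := mem_filter.1 hk
    exact ⟨(hG k a).1, b, (hG k a).2.1, c⟩
  · rw [Fintype.card_piFinset, prod_const, card_range, card_univ, Fintype.card_fin, nsmul_eq_mul]
    push_cast
    rfl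

theorem one_le_log {x : ℝ} (h : 3 ≤ x) : 1 ≤ Real.log x := by
  rw [Real.le_log_iff_exp_le (by linarith)]
  linarith [Real.exp_one_lt_d9]

theorem reals {T L S M D K z g : ℝ} {N r : ℕ} (hT : T = N + 2) (N1 : (1 : ℝ) ≤ N)
    (hL : Real.exp L = T) (l1 : 1 ≤ L) (M1 : 1 ≤ M) (K0 : 0 ≤ K)
    (hz : z = Real.exp (6 * M * (T * L))) (S1 : L + 2 ≤ S) (S2 : S ≤ D * L)
    (r1 : 9 * (N * S) ≤ r) (r2 : r < 9 * (N * S) + 1)
    (h3 : g ≤ (z + 1) + T ^ N * (K * Real.exp (-(N * S)) +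
      3 * K * Real.exp (8 * (N * S)) / 4 ^ (r + 1) + 18 * (2 * z * z) ^ (r + 1))) :
    g ≤ 4 * K * Real.exp (-(2 * N)) + Real.exp ((13 * M * (9 * D + 2) + 3) * (T * L) ^ 2) := by
  have T3 : 3 ≤ T := by linarith
  have T0 : 0 < T := by linarith
  have nl : N * L ≤ T * L := mul_le_mul_of_nonneg_right (by linarith) (by linarith)
  have ns : N * S ≤ D * (T * L) :=
    (mul_le_mul (show (N : ℝ) ≤ T by linarith) S2 (by linarith) T0.le).trans (le_of_eq (by ring))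
  have ns' : N * L + 2 * N ≤ N * S :=
    (le_of_eq (by ring)).trans (mul_le_mul_of_nonneg_left S1 (by linarith))
  have u3 : 3 ≤ T * L := T3.trans (le_mul_of_one_le_right T0.le l1)
  have tN : T ^ N = Real.exp (N * L) := by rw [Real.exp_nat_mul, hL]
  generalize T * L = u at *
  have u9 : 3 * u ≤ u ^ 2 := by nlinarith only [u3]
  have r3 : ((r + 1 : ℕ) : ℝ) ≤ (9 * D + 2) * u := by
    push_cast
    linarith
  have Mu : 1 ≤ M * u := one_le_mul_of_one_le_of_one_le M1 (by linarith)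
  have z1 : 1 ≤ z := hz ▸ Real.one_le_exp (by linarith)
  have e2 : (2 : ℝ) ≤ Real.exp 1 := by linarith [Real.add_one_le_exp (1 : ℝ)]
  have zz : 2 * z * z ≤ Real.exp (13 * M * u) := by
    have b : (2 : ℝ) ≤ Real.exp (M * u) := e2.trans (Real.exp_le_exp.2 Mu)
    calc 2 * z * z ≤ Real.exp (M * u) * z * z := by gcongr
      _ = _ := by
        rw [hz, ← Real.exp_add, ← Real.exp_add]
        congr 1
        ring
  obtain ⟨X, hX⟩ : ∃ X, X = 13 * M * (9 * D + 2) * u ^ 2 := ⟨_, rfl⟩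
  have zr : (2 * z * z) ^ (r + 1) ≤ Real.exp X := by
    refine (pow_le_pow_left₀ (by positivity) zz _).trans ?_
    rw [← Real.exp_nat_mul, Real.exp_le_exp]
    exact (mul_le_mul_of_nonneg_right r3 (by linarith)).trans (le_of_eq (by rw [hX]; ring))
  have a1 : z + 1 ≤ Real.exp X :=
    le_trans (by nlinarith only [z1])
      ((le_self_pow₀ (by nlinarith only [z1]) (Nat.succ_ne_zero r)).trans zr)
  have a2 : Real.exp (8 * (N * S)) / 4 ^ (r + 1) ≤ Real.exp (-(N * S)) := by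
    rw [div_le_iff₀ (by positivity)]
    have b : Real.exp (r + 1 : ℕ) ≤ 4 ^ (r + 1) := by
      rw [← mul_one ((r + 1 : ℕ) : ℝ), Real.exp_nat_mul]
      exact pow_le_pow_left₀ (Real.exp_pos _).le (by linarith [Real.exp_one_lt_d9]) _
    refine le_trans ?_ (mul_le_mul_of_nonneg_left b (Real.exp_pos _).le)
    rw [← Real.exp_add, Real.exp_le_exp]
    push_cast
    linarith
  have a3 : T ^ N * Real.exp (-(N * S)) ≤ Real.exp (-(2 * N)) := by
    rw [tN, ← Real.exp_add, Real.exp_le_exp]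
    linarith
  have a4 : 18 * T ^ N ≤ Real.exp (2 * u ^ 2) := by
    have b' : (18 : ℝ) ≤ Real.exp (u ^ 2) := by
      have c := Real.quadratic_le_exp_of_nonneg (show 0 ≤ u ^ 2 by positivity)
      have d : 9 ≤ u ^ 2 := by linarith
      nlinarith only [c, d]
    rw [tN, two_mul, Real.exp_add]
    exact mul_le_mul b' (Real.exp_le_exp.2 (by linarith)) (Real.exp_pos _).le (Real.exp_pos _).le
  have a5 : Real.exp X + Real.exp (2 * u ^ 2) * Real.exp X ≤
      Real.exp ((13 * M * (9 * D + 2) + 3) * u ^ 2) := by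
    have b : (13 * M * (9 * D + 2) + 3) * u ^ 2 = u ^ 2 + (2 * u ^ 2 + X) := by rw [hX]; ring
    have c : (2 : ℝ) ≤ Real.exp (u ^ 2) := e2.trans (Real.exp_le_exp.2 (by linarith))
    have d := le_mul_of_one_le_left (Real.exp_pos X).le
      (Real.one_le_exp (show 0 ≤ 2 * u ^ 2 by positivity))
    rw [b, Real.exp_add (u ^ 2), Real.exp_add (2 * u ^ 2)]
    calc _ ≤ 2 * (Real.exp (2 * u ^ 2) * Real.exp X) := by linarith
      _ ≤ _ := by gcongr
  have t0 : 0 < T ^ N := by positivity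
  have a6 : T ^ N * (3 * K * Real.exp (8 * (N * S)) / 4 ^ (r + 1)) ≤
      3 * K * Real.exp (-(2 * N)) := by
    calc _ = 3 * K * (T ^ N * (Real.exp (8 * (N * S)) / 4 ^ (r + 1))) := by ring
      _ ≤ 3 * K * (T ^ N * Real.exp (-(N * S))) := by gcongr
      _ ≤ _ := by gcongr
  have a7 : T ^ N * (K * Real.exp (-(N * S))) ≤ K * Real.exp (-(2 * N)) := by
    calc _ = K * (T ^ N * Real.exp (-(N * S))) := by ring
      _ ≤ _ := by gcongr
  have a8 : T ^ N * (18 * (2 * z * z) ^ (r + 1)) ≤ Real.exp (2 * u ^ 2) * Real.exp X := by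
    calc _ = 18 * T ^ N * (2 * z * z) ^ (r + 1) := by ring
      _ ≤ _ := by gcongr
  rw [mul_add, mul_add] at h3
  linarith

theorem all_range : ∃ B : ℝ, 1 ≤ B ∧ ∀ (N K : ℕ) (G : Finset ℕ), 1 ≤ N →
    (∀ k ∈ G, 3 ≤ k ∧ k < K ∧ Ok (N + 2) k) →
    (G.card : ℝ) ≤ 4 * K * Real.exp (-(2 * N)) +
      Real.exp (B * ((N + 2) * Real.log (N + 2)) ^ 2) := by
  obtain ⟨C, C0, hC⟩ := second
  obtain ⟨M, hM⟩ := exists_nat_ge (Real.exp (C + 2))
  have M1 : (1 : ℝ) ≤ M := (Real.one_le_exp (by linarith)).trans hM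
  have M0 : 1 ≤ M := by exact_mod_cast M1
  have lM : C + 2 ≤ Real.log M := (Real.le_log_iff_exp_le (by linarith)).2 hM
  obtain ⟨D, hD⟩ : ∃ D, D = Real.log M + C + 1 := ⟨_, rfl⟩
  have D1 : 1 ≤ D := by linarith
  have B0 : 0 ≤ 13 * M * (9 * D + 2) := by positivity
  refine ⟨13 * M * (9 * D + 2) + 3, by linarith, fun N K G hN hG => ?_⟩
  have N1 : (1 : ℝ) ≤ N := by exact_mod_cast hN
  obtain ⟨T, hT⟩ : ∃ T : ℝ, T = N + 2 := ⟨_, rfl⟩
  have T0 : 0 < T := by linarith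
  have l1 := one_le_log (show 3 ≤ T by linarith)
  obtain ⟨z, hz⟩ : ∃ z : ℕ, z = ((N + 2) ^ 6) ^ (M * (N + 2)) := ⟨_, rfl⟩
  have w2 : 2 ≤ (N + 2) ^ 6 :=
    le_trans (by norm_num) (Nat.pow_le_pow_left (show 2 ≤ N + 2 by omega) 6)
  have wz : (N + 2) ^ 6 ≤ z := hz ▸ Nat.le_self_pow (by positivity) _
  have lw : Real.log (((N + 2) ^ 6 : ℕ) : ℝ) = 6 * Real.log T := by
    push_cast
    rw [Real.log_pow]
    norm_num [hT]
  have lz : Real.log (z : ℝ) = M * T * (6 * Real.log T) := by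
    rw [hz, Nat.cast_pow, Real.log_pow, lw, hT]
    push_cast
    rfl
  have h1 := hC _ _ w2 wz
  rw [lz, lw, mul_div_assoc, div_self (by positivity), mul_one,
    Real.log_mul (by positivity) T0.ne'] at h1
  have h2 := abs_le.1 (h1.trans (div_le_self C0 (by linarith)))
  have h3 := union wz ⌈9 * (N * ∑ p ∈ pri ((N + 2) ^ 6) z, (1 : ℝ) / p)⌉₊ K G hG
  generalize ∑ p ∈ pri ((N + 2) ^ 6) z, (1 : ℝ) / p = S at h2 h3
  have S1 : Real.log T + 2 ≤ S := by linarith [h2.1]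
  have S2 : S ≤ D * Real.log T := by
    have := le_mul_of_one_le_right (show 0 ≤ Real.log M + C by linarith) l1
    rw [hD]
    linarith [h2.2]
  have NS : 0 ≤ 9 * (N * S) := by
    have : 0 ≤ S := by linarith
    positivity
  have z0 : (0 : ℝ) < z := by exact_mod_cast (show 0 < z by omega)
  rw [← hT] at h3 ⊢
  refine reals hT N1 (Real.exp_log T0) l1 M1 (Nat.cast_nonneg _) ?_ S1 S2 (Nat.le_ceil _)
    (Nat.ceil_lt_add_one NS) h3
  rw [← Real.exp_log z0, lz]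
  congr 1
  ring

theorem final {B L s l c τ g K : ℝ} {N : ℕ} (B1 : 1 ≤ B) (hc : c = 1 / (2 * B)) (hs : s ^ 2 = L)
    (s0 : 0 ≤ s) (hl : l = Real.log L) (l1 : 1 ≤ l) (hτ : τ = c * s / l) (τ9 : 9 ≤ τ)
    (n1 : (N : ℝ) + 2 ≤ τ) (n2 : τ < N + 3) (hK : K = Real.exp L)
    (h : g ≤ 4 * (K + 1) * Real.exp (-(2 * N)) +
      Real.exp (B * ((N + 2) * Real.log (N + 2)) ^ 2)) :
    τ ≤ s ∧ g ≤ K * Real.exp (-τ) := by
  have c0 : 0 < c := by rw [hc]; positivity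
  have cB : B * c = 1 / 2 := by rw [hc]; field_simp
  have c1 : c ≤ 1 / 2 := cB ▸ le_mul_of_one_le_left c0.le B1
  have τl : τ * l = c * s := by rw [hτ]; field_simp
  have τs : τ ≤ s := by nlinarith only [τl, l1, τ9, c1, s0]
  have sL : s ≤ L := by nlinarith only [hs, τs, τ9]
  have N0 : (0 : ℝ) ≤ N := Nat.cast_nonneg _
  have a1 : Real.log (N + 2) ≤ l := hl ▸ Real.log_le_log (by linarith) (by linarith)
  have a0 : 0 ≤ Real.log (N + 2) := Real.log_nonneg (by linarith)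
  have a2 : (N + 2) * Real.log (N + 2) ≤ c * s := τl ▸ mul_le_mul n1 a1 a0 (by linarith)
  have a3 : B * ((N + 2) * Real.log (N + 2)) ^ 2 ≤ L / 2 := by
    calc _ ≤ B * (c * s) ^ 2 := by gcongr
      _ = B * c * c * L := by rw [← hs]; ring
      _ ≤ _ := by rw [cB]; nlinarith only [c1, sL, s0, c0]
  have K1 : 1 ≤ K := hK ▸ Real.one_le_exp (by linarith)
  have e2 : (2 : ℝ) ≤ Real.exp 1 := by linarith [Real.add_one_le_exp (1 : ℝ)]
  have e3 : (16 : ℝ) ≤ Real.exp 3 := by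
    have a := Real.exp_one_gt_d9
    have b : Real.exp 3 = Real.exp 1 ^ 3 := by rw [← Real.exp_nat_mul]; norm_num
    rw [b]
    exact le_trans (by norm_num) (pow_le_pow_left₀ (by norm_num) a.le 3)
  have b1 : 16 * Real.exp (-(2 * N)) ≤ Real.exp (-τ) := by
    refine (mul_le_mul_of_nonneg_right e3 (Real.exp_pos _).le).trans ?_
    rw [← Real.exp_add, Real.exp_le_exp]
    linarith
  have b2 : 2 * Real.exp (L / 2) ≤ K * Real.exp (-τ) := by
    refine (mul_le_mul_of_nonneg_right e2 (Real.exp_pos _).le).trans ?_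
    rw [hK, ← Real.exp_add, ← Real.exp_add, Real.exp_le_exp]
    nlinarith only [hs, τs, τ9]
  have b3 := Real.exp_le_exp.2 a3
  have b4 := mul_le_mul_of_nonneg_left b1 (show 0 ≤ K by linarith)
  have b5 := mul_le_mul_of_nonneg_right K1 (Real.exp_pos (-(2 * (N : ℝ)))).le
  exact ⟨τs, by linarith⟩

theorem sparse : ∃ c : ℝ, 0 < c ∧ ∃ K₀ : ℕ, ∀ K : ℕ, K₀ ≤ K → ∀ G : Finset ℕ,
    (∀ k ∈ G, 3 ≤ k ∧ k ≤ K ∧ ∀ n : ℕ, 1 < n →
      (n : ℝ) ≤ √(Real.log K) / Real.log (Real.log K) →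
      ∃ x y : ℕ, 0 < x ∧ 0 < y ∧ n = x + y ∧ (val k x y).Prime) →
    (G.card : ℝ) ≤ K * Real.exp (-(c * √(Real.log K) / Real.log (Real.log K))) := by
  obtain ⟨B, B1, hB⟩ := all_range
  obtain ⟨c, hc⟩ : ∃ c : ℝ, c = 1 / (2 * B) := ⟨_, rfl⟩
  have c0 : 0 < c := by rw [hc]; positivity
  have c1 : c ≤ 1 := by rw [hc, div_le_one (by linarith)]; linarith
  obtain ⟨K₀, hK₀⟩ := exists_nat_ge (Real.exp ((36 / c) ^ 4))
  refine ⟨c, c0, K₀, fun K hK G hG => ?_⟩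
  have k1 : Real.exp ((36 / c) ^ 4) ≤ K := hK₀.trans (Nat.cast_le.2 hK)
  have K0 : (0 : ℝ) < K := (Real.exp_pos _).trans_le k1
  have L1 : (36 / c) ^ 4 ≤ Real.log K := (Real.le_log_iff_exp_le K0).2 k1
  have eK := (Real.exp_log K0).symm
  generalize Real.log K = L at hG L1 eK ⊢
  have q : 36 ≤ 36 / c := le_div_self (by norm_num) c0 c1
  have L3 : 3 ≤ L := le_trans (by norm_num) ((pow_le_pow_left₀ (by norm_num) q 4).trans L1)
  have l1 := one_le_log L3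
  have hs : √L ^ 2 = L := Real.sq_sqrt (by linarith)
  have s0 := Real.sqrt_nonneg L
  have hv : √(√L) ^ 2 = √L := Real.sq_sqrt s0
  have v0 := Real.sqrt_nonneg (√L)
  generalize √(√L) = v at hv v0
  have v4 : v ^ 4 = L := by rw [← hs, ← hv]; ring
  have v1 : 36 / c ≤ v := le_of_pow_le_pow_left₀ (by norm_num) v0 (v4 ▸ L1)
  have lv : Real.log L ≤ 4 * v := by
    rw [← v4, Real.log_pow]
    have := Real.log_le_sub_one_of_pos (show 0 < v by linarith)
    push_cast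
    linarith
  have τ9 : 9 ≤ c * √L / Real.log L := by
    rw [le_div_iff₀ (by linarith), ← hv]
    rw [div_le_iff₀ c0] at v1
    nlinarith only [lv, v1, v0]
  obtain ⟨N, hN⟩ : ∃ N, ⌊c * √L / Real.log L⌋₊ = N + 2 :=
    ⟨⌊c * √L / Real.log L⌋₊ - 2, by
      have : 9 ≤ ⌊c * √L / Real.log L⌋₊ := Nat.le_floor (by exact_mod_cast τ9)
      omega⟩
  have n1 := Nat.floor_le (show 0 ≤ c * √L / Real.log L by linarith)
  have n2 := Nat.lt_floor_add_one (c * √L / Real.log L)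
  rw [hN] at n1 n2
  push_cast at n1 n2
  have N1 : 1 ≤ N := by
    have : (1 : ℝ) ≤ N := by linarith
    exact_mod_cast this
  have cs : c * √L / Real.log L ≤ √L / Real.log L :=
    div_le_div_of_nonneg_right (mul_le_of_le_one_left s0 c1) (by linarith)
  have h := hB N (K + 1) G N1 fun k hk => ⟨(hG k hk).1, Nat.lt_succ_of_le (hG k hk).2.1,
    fun n a b => (hG k hk).2.2 n a (by
      have : (n : ℝ) ≤ N + 2 := by exact_mod_cast b
      linarith)⟩
  push_cast at h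
  exact (final B1 hc hs s0 rfl l1 rfl τ9 n1 (by linarith) eK h).2

end Pool.Agent.MP_9d963a_nt
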