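import Mathlib
import Pool.Agent.MP_db1c88_nt.st.Mertens

/-! A truncated product sieve (copied from the file Cnt.Par of MP_110442_nt) and the second
theorem of Mertens (copied from the file sp.Mer of MP_7b352a_nt). -/

set_option autoImplicit false

namespace Pool.Agent.MP_9d963a_nt.Sv

open Finset Function

theorem crt2 {a b : ℕ} (ha : a ≠ 0) (hb : b ≠ 0) (h : Nat.Coprime a b) {f g : ℕ → ℝ}
    (hf : Periodic f a) (hg : Periodic g b) :
    ∑ l ∈ range (a * b), f l * g l = (∑ l ∈ range a, f l) * ∑ l ∈ range b, g l := by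
  rw [sum_mul_sum, ← sum_product']
  refine sum_nbij (fun l => (l % a, l % b)) ?_ ?_ ?_ ?_
  · intro l _
    simp [Nat.mod_lt _ (Nat.pos_of_ne_zero ha), Nat.mod_lt _ (Nat.pos_of_ne_zero hb)]
  · intro l hl m hm e
    simp only [Prod.mk.injEq] at e
    have := (Nat.modEq_and_modEq_iff_modEq_mul h).1 ⟨e.1, e.2⟩
    exact Nat.ModEq.eq_of_lt_of_lt this (by simpa using hl) (by simpa using hm)
  · rintro ⟨x, y⟩ hxy
    simp only [coe_product, coe_range, Set.mem_prod, Set.mem_Iio] at hxy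
    refine ⟨Nat.chineseRemainder h x y, by simpa using Nat.chineseRemainder_lt_mul h x y ha hb, ?_⟩
    have h1 := (Nat.chineseRemainder h x y).2.1
    have h2 := (Nat.chineseRemainder h x y).2.2
    simp only [Prod.mk.injEq]
    exact ⟨Eq.trans h1 (Nat.mod_eq_of_lt hxy.1), Eq.trans h2 (Nat.mod_eq_of_lt hxy.2)⟩
  · intro l _
    rw [hf.map_mod_nat, hg.map_mod_nat]

theorem crt (S : Finset ℕ) (q : ℕ → ℕ) (h0 : ∀ p ∈ S, q p ≠ 0)
    (hq : ∀ p ∈ S, ∀ p' ∈ S, p ≠ p' → Nat.Coprime (q p) (q p')) (φ : ℕ → ℕ → ℝ)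
    (hφ : ∀ p ∈ S, Periodic (φ p) (q p)) :
    Periodic (fun l => ∏ p ∈ S, φ p l) (∏ p ∈ S, q p) ∧
      ∑ l ∈ range (∏ p ∈ S, q p), ∏ p ∈ S, φ p l = ∏ p ∈ S, ∑ l ∈ range (q p), φ p l := by
  have per : ∀ T ⊆ S, Periodic (fun l => ∏ p ∈ T, φ p l) (∏ p ∈ T, q p) := by
    intro T hT l
    refine prod_congr rfl fun p hp => ?_
    obtain ⟨c, hc⟩ := dvd_prod_of_mem q hp
    rw [hc, mul_comm]
    exact (hφ p (hT hp)).nat_mul c l
  refine ⟨per S Subset.rfl, ?_⟩
  induction S using Finset.induction_on with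
  | empty => simp
  | insert p S hp ih =>
    have sub := subset_insert p S
    simp only [prod_insert hp]
    rw [crt2 (h0 p (mem_insert_self _ _)) (prod_ne_zero_iff.2 fun x hx => h0 x (sub hx))
      (Nat.Coprime.prod_right fun x hx => hq p (mem_insert_self _ _) x (sub hx)
        (fun e => hp (e ▸ hx))) (hφ p (mem_insert_self _ _)) (per S sub),
      ih (fun x hx => h0 x (sub hx)) (fun x hx y hy => hq x (sub hx) y (sub hy))
        (fun x hx => hφ x (sub hx)) fun T hT => per T (hT.trans sub)]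

theorem shift {F : ℕ → ℝ} {D : ℕ} (hF : Periodic F D) (a : ℕ) :
    ∑ i ∈ range D, F (a + i) = ∑ i ∈ range D, F i := by
  induction a with
  | zero => simp
  | succ a ih =>
    have h1 := sum_range_succ (fun i => F (a + i)) D
    have h2 := sum_range_succ' (fun i => F (a + i)) D
    simp only [add_zero] at h2
    rw [hF a, ih] at h1
    have : ∑ i ∈ range D, F (a + 1 + i) = ∑ i ∈ range D, F (a + (i + 1)) :=
      sum_congr rfl fun i _ => by rw [add_assoc, add_comm 1 i]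
    linarith

theorem per_bound {F : ℕ → ℝ} {D : ℕ} (hD : D ≠ 0) (hF : Periodic F D) (h1 : ∀ l, |F l| ≤ 1)
    (N a : ℕ) : |∑ i ∈ range N, F (a + i) - N * ((∑ i ∈ range D, F i) / D)| ≤ 2 * D := by
  have hD' : (0 : ℝ) < D := by exact_mod_cast Nat.pos_of_ne_zero hD
  have bd : ∀ N a : ℕ, |∑ i ∈ range N, F (a + i)| ≤ N := fun N a =>
    (abs_sum_le_sum_abs _ _).trans ((sum_le_card_nsmul _ _ 1 fun i _ => h1 _).trans (by simp))
  induction N using Nat.strong_induction_on generalizing a with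
  | _ N ih =>
    rcases lt_or_ge N D with h | h
    · have h2 : |(∑ i ∈ range D, F i) / D| ≤ 1 := by
        rw [abs_div, abs_of_pos hD', div_le_one hD']
        simpa using bd D 0
      have h3 : (N : ℝ) ≤ D := by exact_mod_cast h.le
      have h4 : |(N : ℝ) * ((∑ i ∈ range D, F i) / D)| ≤ N := by
        rw [abs_mul, Nat.abs_cast]
        exact mul_le_of_le_one_right (Nat.cast_nonneg _) h2
      have := abs_sub (∑ i ∈ range N, F (a + i)) (N * ((∑ i ∈ range D, F i) / D))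
      linarith [bd N a]
    · obtain ⟨M, rfl⟩ := Nat.exists_eq_add_of_le h
      have := ih M (by omega) (a + D)
      rw [sum_range_add, shift hF]
      simp only [add_assoc] at this
      have e : ∑ i ∈ range D, F i + ∑ i ∈ range M, F (a + (D + i)) -
          ((D + M : ℕ) : ℝ) * ((∑ i ∈ range D, F i) / D) =
          ∑ i ∈ range M, F (a + (D + i)) - M * ((∑ i ∈ range D, F i) / D) := by
        push_cast; field_simp; ring
      rwa [e]

/-- The mean over a period. -/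
noncomputable def mean (F : ℕ → ℝ) (D : ℕ) : ℝ := (∑ i ∈ range D, F i) / D

/-- Data of a family of periodic functions with coprime periods. -/
structure Per (P : Finset ℕ) (q : ℕ → ℕ) (Q : ℕ) (φ : ℕ → ℕ → ℝ) : Prop where
  pos : ∀ p ∈ P, q p ≠ 0
  le : ∀ p ∈ P, q p ≤ Q
  cop : ∀ p ∈ P, ∀ p' ∈ P, p ≠ p' → Nat.Coprime (q p) (q p')
  per : ∀ p ∈ P, Periodic (φ p) (q p)
  bd : ∀ p ∈ P, ∀ l, |φ p l| ≤ 1

theorem kub {P : Finset ℕ} {q : ℕ → ℕ} {Q : ℕ} {φ : ℕ → ℕ → ℝ} (h : Per P q Q φ) (hQ : 1 ≤ Q)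
    {S : Finset ℕ} (hS : S ⊆ P) {r : ℕ} (hr : S.card ≤ r) (N a : ℕ) :
    |∑ i ∈ range N, ∏ p ∈ S, φ p (a + i) - N * ∏ p ∈ S, mean (φ p) (q p)| ≤ 2 * (Q : ℝ) ^ r := by
  obtain ⟨h1, h2⟩ := crt S q (fun p hp => h.pos p (hS hp))
    (fun p hp p' hp' => h.cop p (hS hp) p' (hS hp')) φ fun p hp => h.per p (hS hp)
  have h3 := per_bound (prod_ne_zero_iff.2 fun p hp => h.pos p (hS hp)) h1 (fun l => by
    rw [abs_prod]
    exact prod_le_one (fun _ _ => abs_nonneg _) fun p hp => h.bd p (hS hp) l) N a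
  rw [h2, Nat.cast_prod, ← prod_div_distrib] at h3
  refine h3.trans (mul_le_mul_of_nonneg_left ?_ (by norm_num))
  have : ∏ p ∈ S, q p ≤ Q ^ r :=
    (prod_le_pow_card _ _ Q fun p hp => h.le p (hS hp)).trans (Nat.pow_le_pow_right hQ hr)
  exact_mod_cast this

theorem prod_le_exp {P : Finset ℕ} {x : ℕ → ℝ} (h : ∀ p ∈ P, 0 ≤ 1 + x p) :
    ∏ p ∈ P, (1 + x p) ≤ Real.exp (∑ p ∈ P, x p) := by
  rw [Real.exp_sum]
  exact prod_le_prod h fun p _ => by linarith [Real.add_one_le_exp (x p)]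

theorem tail_hi {P : Finset ℕ} {x : ℕ → ℝ} (hx : ∀ p ∈ P, 0 ≤ x p) {j : ℕ} {A : Finset (Finset ℕ)}
    (hA : ∀ S ∈ A, S ⊆ P ∧ j ≤ S.card) :
    ∑ S ∈ A, ∏ p ∈ S, x p ≤ Real.exp (8 * ∑ p ∈ P, x p) / 8 ^ j := by
  have h0 : ∀ S ⊆ P, 0 ≤ ∏ p ∈ S, x p := fun S hS => prod_nonneg fun p hp => hx p (hS hp)
  rw [le_div_iff₀ (by positivity), sum_mul, mul_sum]
  refine le_trans ?_ (prod_le_exp fun p hp => by linarith [hx p hp])
  rw [prod_one_add]
  refine le_trans (sum_le_sum fun S hS => ?_) (sum_le_sum_of_subset_of_nonneg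
    (fun S hS => mem_powerset.2 (hA S hS).1) fun S hS _ =>
      prod_nonneg fun p hp => by linarith [hx p (mem_powerset.1 hS hp)])
  rw [prod_mul_distrib, prod_const, mul_comm]
  exact mul_le_mul_of_nonneg_right (pow_le_pow_right₀ (by norm_num) (hA S hS).2)
    (h0 S (hA S hS).1)

theorem cnt_lo {P : Finset ℕ} {z j : ℕ} (hz : 1 ≤ z) (hP : P.card ≤ z) {A : Finset (Finset ℕ)}
    (hA : ∀ S ∈ A, S ⊆ P ∧ S.card ≤ j) : (A.card : ℝ) ≤ 3 * (z : ℝ) ^ j := by
  have z1 : (1 : ℝ) ≤ z := by exact_mod_cast hz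
  have z0 : (0 : ℝ) < z := by linarith
  have h1 : ∏ _p ∈ P, (1 + (z : ℝ)⁻¹) ≤ 3 := by
    refine (prod_le_exp fun _ _ => by positivity).trans
      ((Real.exp_le_exp.2 ?_).trans (Real.exp_one_lt_d9.le.trans (by norm_num)))
    rw [sum_const, nsmul_eq_mul, ← div_eq_mul_inv, div_le_one z0]
    exact_mod_cast hP
  rw [prod_one_add] at h1
  refine le_trans ?_ (mul_le_mul_of_nonneg_right h1 (by positivity))
  rw [sum_mul, card_eq_sum_ones, Nat.cast_sum]
  refine le_trans (sum_le_sum fun S hS => ?_) (sum_le_sum_of_subset_of_nonneg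
    (fun S hS => mem_powerset.2 (hA S hS).1) fun S hS _ => by positivity)
  rw [prod_const, inv_pow, Nat.cast_one, ← div_eq_inv_mul, one_le_div (by positivity)]
  exact pow_le_pow_right₀ z1 (hA S hS).2

/-- Subsets with at most `r` elements. -/
def lo (P : Finset ℕ) (r : ℕ) : Finset (Finset ℕ) := P.powerset.filter fun S => S.card ≤ r

theorem mem_lo {P S : Finset ℕ} {r : ℕ} : S ∈ lo P r ↔ S ⊆ P ∧ S.card ≤ r := by
  simp [lo]

theorem prod_split (P : Finset ℕ) (r : ℕ) (x : ℕ → ℝ) : ∏ p ∈ P, (1 + x p) =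
    ∑ S ∈ lo P r, ∏ p ∈ S, x p +
      ∑ S ∈ P.powerset.filter (fun S => ¬ S.card ≤ r), ∏ p ∈ S, x p := by
  rw [prod_one_add, lo, sum_filter_add_sum_filter_not]

theorem prod_lo {P : Finset ℕ} {x y : ℕ → ℝ} (h : ∀ p ∈ P, |x p| ≤ y p) (r : ℕ) :
    |∏ p ∈ P, (1 + x p) - ∑ S ∈ lo P r, ∏ p ∈ S, x p| ≤
      Real.exp (8 * ∑ p ∈ P, y p) / 8 ^ (r + 1) := by
  rw [prod_split P r, add_sub_cancel_left]
  refine (abs_sum_le_sum_abs _ _).trans (le_trans (sum_le_sum fun S hS => ?_)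
    (tail_hi (fun p hp => (abs_nonneg _).trans (h p hp)) fun S hS => by
      simp only [mem_filter, mem_powerset] at hS
      exact ⟨hS.1, by omega⟩))
  rw [abs_prod]
  exact prod_le_prod (fun _ _ => abs_nonneg _) fun p hp =>
    h p (mem_powerset.1 (mem_filter.1 hS).1 hp)

theorem trunc {P : Finset ℕ} {h t : ℕ → ℝ} (ht : ∀ p ∈ P, t p = 0 ∨ t p = 1)
    (hh : ∀ p ∈ P, |h p| ≤ t p) (r : ℕ) :
    ∏ p ∈ P, (1 + h p) = ∑ S ∈ lo P r, ∏ p ∈ S, h p ∨
      1 + |∑ S ∈ lo P r, ∏ p ∈ S, h p| ≤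
        2 ^ (r + 2) * ∑ S ∈ powersetCard (r + 1) P, ∏ p ∈ S, t p := by
  set T := P.filter fun p => t p = 1 with hT
  have z : ∀ S ⊆ P, ¬ S ⊆ T → ∏ p ∈ S, h p = 0 := by
    intro S hS hn
    obtain ⟨p, hp, hp'⟩ := not_subset.1 hn
    have h1 : t p = 0 := (ht p (hS hp)).resolve_right fun e => hp' (mem_filter.2 ⟨hS hp, e⟩)
    exact prod_eq_zero hp (abs_nonpos_iff.1 (h1 ▸ hh p (hS hp)))
  rcases le_or_gt T.card r with hc | hc
  · left
    rw [prod_split P r, sum_eq_zero (s := P.powerset.filter _), add_zero]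
    intro S hS
    simp only [mem_filter, mem_powerset] at hS
    exact z S hS.1 fun e => hS.2 ((card_le_card e).trans hc)
  · right
    have h1 : ((powersetCard (r + 1) T).card : ℝ) ≤
        ∑ S ∈ powersetCard (r + 1) P, ∏ p ∈ S, t p := by
      rw [card_eq_sum_ones, Nat.cast_sum]
      refine le_trans (sum_le_sum fun S hS => ?_) (sum_le_sum_of_subset_of_nonneg
        (powersetCard_mono (filter_subset _ _)) fun S hS _ => prod_nonneg fun p hp =>
          (abs_nonneg _).trans (hh p ((mem_powersetCard.1 hS).1 hp)))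
      rw [Nat.cast_one, prod_eq_one fun p hp => (mem_filter.1 ((mem_powersetCard.1 hS).1 hp)).2]
    have h2 : (lo T r).card ≤ (powersetCard (r + 1) T).card * 2 ^ (r + 1) := by
      refine le_trans (card_le_card (t := (powersetCard (r + 1) T).biUnion powerset) ?_)
        (card_biUnion_le_card_mul _ _ _ fun S hS => by
          rw [card_powerset, (mem_powersetCard.1 hS).2])
      intro S hS
      obtain ⟨U, h1, h2, h3⟩ := exists_subsuperset_card_eq (mem_lo.1 hS).1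
        ((mem_lo.1 hS).2.trans (Nat.le_succ r)) hc
      exact mem_biUnion.2 ⟨U, mem_powersetCard.2 ⟨h2, h3⟩, mem_powerset.2 h1⟩
    have h3 : |∑ S ∈ lo P r, ∏ p ∈ S, h p| ≤ (lo T r).card := by
      rw [← sum_subset (s₁ := lo T r)
        (fun S hS => mem_lo.2 ⟨(mem_lo.1 hS).1.trans (filter_subset _ _), (mem_lo.1 hS).2⟩)
        fun S hS hn => z S (mem_lo.1 hS).1 fun e => hn (mem_lo.2 ⟨e, (mem_lo.1 hS).2⟩)]
      refine (abs_sum_le_sum_abs _ _).trans ((sum_le_card_nsmul _ _ 1 fun S hS => ?_).trans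
        (by simp))
      rw [abs_prod]
      refine prod_le_one (fun _ _ => abs_nonneg _) fun p hp => ?_
      have := mem_filter.1 ((mem_lo.1 hS).1 hp)
      exact this.2 ▸ hh p this.1
    have h4 : (1 : ℝ) ≤ (powersetCard (r + 1) T).card := by
      exact_mod_cast card_pos.2 (powersetCard_nonempty.2 hc)
    have h5 : ((lo T r).card : ℝ) ≤ (powersetCard (r + 1) T).card * 2 ^ (r + 1) := by
      exact_mod_cast h2
    have h6 : (1 : ℝ) ≤ 2 ^ (r + 1) := one_le_pow₀ (by norm_num)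
    rw [pow_succ (2 : ℝ) (r + 1)]
    nlinarith

theorem sieve {P : Finset ℕ} {q : ℕ → ℕ} {Q z : ℕ} {h t : ℕ → ℕ → ℝ} (H : Per P q Q h)
    (T : Per P q Q t) (hQ : 1 ≤ Q) (hz : 1 ≤ z) (hP : P.card ≤ z)
    (ht : ∀ p ∈ P, ∀ l, t p l = 0 ∨ t p l = 1) (hh : ∀ p ∈ P, ∀ l, |h p l| ≤ t p l)
    {W lam : ℝ} (W0 : 0 ≤ W) (W1 : W ≤ 1) (hl : ∑ p ∈ P, mean (t p) (q p) ≤ lam) (r N a : ℕ)
    (E : Finset ℕ) (hE : ∀ i ∈ E, i < N ∧ 1 ≤ W * ∏ p ∈ P, (1 + h p (a + i))) :
    (E.card : ℝ) ≤ W * N * ∏ p ∈ P, (1 + mean (h p) (q p)) +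
      3 * N * Real.exp (8 * lam) / 4 ^ (r + 1) + 18 * (2 * z * Q : ℝ) ^ (r + 1) := by
  have hm : ∀ p ∈ P, |mean (h p) (q p)| ≤ mean (t p) (q p) := fun p hp => by
    rw [mean, mean, abs_div, Nat.abs_cast]
    exact div_le_div_of_nonneg_right
      ((abs_sum_le_sum_abs _ _).trans (sum_le_sum fun i _ => hh p hp i)) (Nat.cast_nonneg _)
  set G : ℕ → ℝ := fun l => ∑ S ∈ lo P r, ∏ p ∈ S, h p l with hG
  set e : ℕ → ℝ := fun l => ∑ S ∈ powersetCard (r + 1) P, ∏ p ∈ S, t p l with he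
  have e0 : ∀ l, 0 ≤ e l := fun l => sum_nonneg fun S hS => prod_nonneg fun p hp =>
    (abs_nonneg _).trans (hh p ((mem_powersetCard.1 hS).1 hp) l)
  have pt : ∀ l (c : ℝ), c ≤ 1 → c ≤ W * ∏ p ∈ P, (1 + h p l) →
      c ≤ W * G l + 2 ^ (r + 2) * e l := by
    intro l c c1 c2
    rcases trunc (fun p hp => ht p hp l) (fun p hp => hh p hp l) r with h1 | h1
    · rw [h1] at c2
      have := mul_nonneg (by positivity : (0 : ℝ) ≤ 2 ^ (r + 2)) (e0 l)
      exact c2.trans (le_add_of_nonneg_right this)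
    · have h2 : -|G l| ≤ W * G l := by
        have := neg_abs_le (G l)
        have := abs_nonneg (G l)
        nlinarith
      change 1 + |G l| ≤ 2 ^ (r + 2) * e l at h1
      linarith
  have s1 : (E.card : ℝ) ≤ ∑ i ∈ range N, (W * G (a + i) + 2 ^ (r + 2) * e (a + i)) := by
    rw [card_eq_sum_ones, Nat.cast_sum]
    refine le_trans (sum_le_sum fun i hi => pt _ _ (by simp) (by simpa using (hE i hi).2))
      (sum_le_sum_of_subset_of_nonneg (fun i hi => mem_range.2 (hE i hi).1) fun i _ _ =>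
        pt _ 0 zero_le_one (mul_nonneg W0 (prod_nonneg fun p hp => ?_)))
    linarith [neg_abs_le (h p (a + i)), H.bd p hp (a + i)]
  have N0 : (0 : ℝ) ≤ N := Nat.cast_nonneg _
  set τ := Real.exp (8 * lam) / 8 ^ (r + 1) with hτ
  set ε := 3 * (z : ℝ) ^ (r + 1) * (2 * (Q : ℝ) ^ (r + 1)) with hε
  have mono : Real.exp (8 * ∑ p ∈ P, mean (t p) (q p)) / 8 ^ (r + 1) ≤ τ := by
    rw [hτ]; gcongr
  have gen : ∀ {φ : ℕ → ℕ → ℝ}, Per P q Q φ → ∀ A : Finset (Finset ℕ),
      (∀ S ∈ A, S ⊆ P ∧ S.card ≤ r + 1) → ∑ i ∈ range N, ∑ S ∈ A, ∏ p ∈ S, φ p (a + i) ≤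
        N * ∑ S ∈ A, ∏ p ∈ S, mean (φ p) (q p) + ε := by
    intro φ hφ A hA
    rw [sum_comm, mul_sum]
    refine le_trans (sum_le_sum (g := fun S => N * ∏ p ∈ S, mean (φ p) (q p) +
      2 * (Q : ℝ) ^ (r + 1)) fun S hS => ?_) ?_
    · linarith [(abs_le.1 (kub hφ hQ (hA S hS).1 (hA S hS).2 N a)).2]
    · rw [sum_add_distrib, sum_const, nsmul_eq_mul, hε]
      gcongr
      exact cnt_lo hz hP hA
  have s2 := gen H (lo P r) fun S hS => ⟨(mem_lo.1 hS).1, (mem_lo.1 hS).2.trans (Nat.le_succ r)⟩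
  have s3 := gen T (powersetCard (r + 1) P) fun S hS =>
    ⟨(mem_powersetCard.1 hS).1, (mem_powersetCard.1 hS).2.le⟩
  have s4 := (abs_le.1 ((prod_lo hm r).trans mono)).1
  have s5 := (tail_hi (j := r + 1) (A := powersetCard (r + 1) P)
    (fun p hp => (abs_nonneg _).trans (hm p hp))
    fun S hS => ⟨(mem_powersetCard.1 hS).1, (mem_powersetCard.1 hS).2.ge⟩).trans mono
  rw [sum_add_distrib, ← mul_sum, ← mul_sum] at s1
  have τ0 : 0 ≤ τ := by positivity
  have ε0 : 0 ≤ ε := by positivity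
  have b1 : W * ∑ i ∈ range N, G (a + i) ≤
      W * N * ∏ p ∈ P, (1 + mean (h p) (q p)) + (N * τ + ε) := by
    have c1 : ∑ i ∈ range N, G (a + i) ≤
        N * ∏ p ∈ P, (1 + mean (h p) (q p)) + (N * τ + ε) := by
      refine s2.trans ?_
      nlinarith
    have c2 : W * (N * τ + ε) ≤ N * τ + ε := mul_le_of_le_one_left (by positivity) W1
    nlinarith
  have b2 : ∑ i ∈ range N, e (a + i) ≤ N * τ + ε := by
    refine s3.trans ?_
    nlinarith
  have b3 : (1 + 2 ^ (r + 2)) * (N * τ + ε) ≤ 3 * 2 ^ (r + 1) * (N * τ + ε) := by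
    refine mul_le_mul_of_nonneg_right ?_ (by positivity)
    have h6 : (1 : ℝ) ≤ 2 ^ (r + 1) := one_le_pow₀ (by norm_num)
    rw [pow_succ (2 : ℝ) (r + 1)]
    linarith
  have b4 : 3 * 2 ^ (r + 1) * (N * τ + ε) =
      3 * N * Real.exp (8 * lam) / 4 ^ (r + 1) + 18 * (2 * z * Q : ℝ) ^ (r + 1) := by
    rw [hτ, hε, show (8 : ℝ) ^ (r + 1) = 2 ^ (r + 1) * 4 ^ (r + 1) by rw [← mul_pow]; norm_num,
      mul_pow, mul_pow]
    field_simp
    ring
  have b5 := mul_le_mul_of_nonneg_left b2 (by positivity : (0 : ℝ) ≤ 2 ^ (r + 2))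
  linarith

noncomputable section

open scoped ArithmeticFunction.vonMangoldt

/-- The primes in an interval. -/
def pri (a b : ℕ) : Finset ℕ := (Ioc a b).filter Nat.Prime

theorem mem_pri {a b p : ℕ} : p ∈ pri a b ↔ (a < p ∧ p ≤ b) ∧ p.Prime := by
  rw [pri, mem_filter, mem_Ioc]

theorem sum_pri_succ {a b : ℕ} (h : a ≤ b) (f : ℕ → ℝ) :
    ∑ p ∈ pri a (b + 1), f p = ∑ p ∈ pri a b, f p + if (b + 1).Prime then f (b + 1) else 0 := by
  rw [pri, pri, sum_filter, sum_filter, sum_Ioc_succ_top h]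

/-- The error term in the first theorem of Mertens. -/
def merr (n : ℕ) : ℝ := ∑ p ∈ pri 0 n, Real.log p / p - Real.log n

theorem merr_le : ∃ C : ℝ, 0 ≤ C ∧ ∀ n : ℕ, 1 ≤ n → |merr n| ≤ C := by
  obtain ⟨C, hC, h⟩ := MP_db1c88_nt.st.exists_nonprime_bound
  refine ⟨C + 6, by linarith, fun n hn => ?_⟩
  have a1 := MP_db1c88_nt.st.mertens_ge n hn
  have a2 := MP_db1c88_nt.st.mertens_le n hn
  have a3 := sum_filter_add_sum_filter_not (Ioc 0 n) Nat.Prime fun d : ℕ => Λ d / (d : ℝ)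
  have a4 := h (Ioc 0 n)
  have a5 : 0 ≤ ∑ d ∈ (Ioc 0 n).filter (fun d => ¬ d.Prime), Λ d / (d : ℝ) := by positivity
  have a6 : ∑ p ∈ pri 0 n, Real.log p / p = ∑ d ∈ (Ioc 0 n).filter Nat.Prime, Λ d / (d : ℝ) :=
    sum_congr rfl fun p hp => by rw [ArithmeticFunction.vonMangoldt_apply_prime (mem_pri.1 hp).2]
  rw [merr, a6, abs_le]
  constructor <;> linarith

theorem log_pos {a : ℕ} (ha : 2 ≤ a) : 0 < Real.log a :=
  Real.log_pos (by exact_mod_cast ha)

theorem abel {C : ℝ} (hC : ∀ n : ℕ, 1 ≤ n → |merr n| ≤ C) {a b : ℕ} (ha : 2 ≤ a) (hab : a ≤ b) :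
    |∑ p ∈ pri a b, (1 : ℝ) / p - Real.log (Real.log b / Real.log a) - merr b / Real.log b +
      merr a / Real.log a| ≤ (C + 1) * (1 / Real.log a - 1 / Real.log b) := by
  induction b, hab using Nat.le_induction with
  | base => simp [pri, (log_pos ha).ne']
  | succ b hab ih =>
    have hb : 2 ≤ b := ha.trans hab
    have hb0 : (0 : ℝ) < b := by exact_mod_cast (show 0 < b by omega)
    have hb1 : (1 : ℝ) ≤ b := by exact_mod_cast (show 1 ≤ b by omega)
    have u0 := log_pos hb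
    have v0 := log_pos (show 2 ≤ b + 1 by omega)
    have a0 := log_pos ha
    have h1 : Real.log b ≤ Real.log (b + 1 : ℕ) := Real.log_le_log hb0 (by push_cast; linarith)
    have h2 : Real.log (b + 1 : ℕ) - Real.log b ≤ 1 := by
      rw [← Real.log_div (by positivity) hb0.ne']
      refine (Real.log_le_sub_one_of_pos (by positivity)).trans ?_
      rw [sub_le_iff_le_add, div_le_iff₀ hb0]
      push_cast
      linarith
    have h3 : merr (b + 1) = merr b + (if (b + 1).Prime then (1 : ℝ) / (b + 1 : ℕ) else 0) *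
        Real.log (b + 1 : ℕ) - (Real.log (b + 1 : ℕ) - Real.log b) := by
      rw [merr, merr, sum_pri_succ (Nat.zero_le b)]
      split_ifs <;> ring
    have h4 := abs_le.1 (hC b (by omega))
    rw [sum_pri_succ hab, h3, Real.log_div v0.ne' a0.ne']
    rw [Real.log_div u0.ne' a0.ne'] at ih
    generalize (if (b + 1).Prime then (1 : ℝ) / (b + 1 : ℕ) else 0) = t
    generalize Real.log (b + 1 : ℕ) = v at *
    generalize Real.log b = u at *
    have c1 : Real.log v - Real.log u ≤ (v - u) / u := by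
      rw [← Real.log_div v0.ne' u0.ne', sub_div, div_self u0.ne']
      exact Real.log_le_sub_one_of_pos (by positivity)
    have c2 : (v - u) / v ≤ Real.log v - Real.log u := by
      have := Real.log_le_sub_one_of_pos (show 0 < u / v by positivity)
      rw [Real.log_div u0.ne' v0.ne'] at this
      rw [sub_div, div_self v0.ne']
      linarith
    have c3 : 0 ≤ 1 / u - 1 / v := sub_nonneg.2 (one_div_le_one_div_of_le u0 h1)
    have c4 : (v - u) / u - (v - u) / v ≤ 1 / u - 1 / v := by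
      have := mul_le_mul_of_nonneg_right h2 c3
      calc _ = (v - u) * (1 / u - 1 / v) := by ring
        _ ≤ _ := by linarith
    have c5 := mul_le_mul_of_nonneg_right h4.1 c3
    have c6 := mul_le_mul_of_nonneg_right h4.2 c3
    have c7 : (merr b + t * v - (v - u)) / v = merr b * (1 / v) + t - (v - u) / v := by
      field_simp
    have c8 : merr b / u = merr b * (1 / u) := by ring
    rw [c7]
    rw [c8] at ih
    rw [abs_le] at ih ⊢
    constructor <;> linarith [ih.1, ih.2]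

theorem second : ∃ C : ℝ, 0 ≤ C ∧ ∀ a b : ℕ, 2 ≤ a → a ≤ b →
    |∑ p ∈ pri a b, (1 : ℝ) / p - Real.log (Real.log b / Real.log a)| ≤ C / Real.log a := by
  obtain ⟨C, h0, hC⟩ := merr_le
  refine ⟨3 * C + 1, by linarith, fun a b ha hab => ?_⟩
  have a0 := log_pos ha
  have b0 := log_pos (ha.trans hab)
  have h1 := abs_le.1 (abel hC ha hab)
  have h2 : 1 / Real.log b ≤ 1 / Real.log a := one_div_le_one_div_of_le a0
    (Real.log_le_log (by exact_mod_cast (show 0 < a by omega)) (by exact_mod_cast hab))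
  have h3 := abs_le.1 (hC a (by omega))
  have h4 := abs_le.1 (hC b (by omega))
  rw [div_eq_mul_one_div (merr a), div_eq_mul_one_div (merr b)] at h1
  rw [div_eq_mul_one_div (3 * C + 1), abs_le]
  have h5 : 0 < 1 / Real.log b := by positivity
  generalize 1 / Real.log b = y at *
  generalize 1 / Real.log a = x at *
  have c1 := mul_le_mul_of_nonneg_right h3.1 (h5.le.trans h2)
  have c2 := mul_le_mul_of_nonneg_right h3.2 (h5.le.trans h2)
  have c3 := mul_le_mul_of_nonneg_right h4.1 h5.le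
  have c4 := mul_le_mul_of_nonneg_right h4.2 h5.le
  have c5 := mul_nonneg h0 (h5.le.trans h2)
  constructor <;> linarith [h1.1, h1.2]

end

end Pool.Agent.MP_9d963a_nt.Sv
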